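import Pool.Agent.P8H42.EP.Fin

set_option autoImplicit false

/-!
# The weak Mertens hypothesis at every point `s`: the sums `∑_{n ≤ u} μ(n) n^(-s)`

For complex `s` let `A(s, u) = ∑_{n ≤ u} μ(n) n^(-s)`. The main term `C(s, u)` of `A(s, u)` is `0` if
`Re s < 1/2` or `s = 1`, it is `1 / ζ(s)` if `Re s ≥ 1/2`, `s ≠ 1` and `ζ(s) ≠ 0`, and it is
`log u / ζ'(s) - ζ''(s) / (2 ζ'(s)^2)` at a zero `s` of `ζ` with `Re s ≥ 1/2`. A point `s` is covered if
`Re s < 1/2`, or `s = 1`, or `ζ(s) ≠ 0`, or `s` is a simple zero on the critical line.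

At every covered point the weak Mertens hypothesis for `M(u) = ∑_{n ≤ u} μ(n)` is equivalent to
`∫_1^x |A(s, u) - C(s, u)|^2 u^(2 Re s - 2) du ≤ C log x`, for all `x ≥ 2` or only for some arbitrarily
large `x`; if it holds, the quotient by `log x` tends to `∑_ρ 1 / |(ρ - s) ζ'(ρ)|^2`, which is finite and
positive (at a simple zero `s` the term `ρ = s` is left out), and the explicit formula
`A(s, u) - C(s, u) = ∑_ρ u^(ρ - s) / ((ρ - s) ζ'(ρ))` holds in mean square; if it fails, the quotient tends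
to infinity. At the points of the critical line with `ζ(s) ≠ 0` the same is true of
`∫_1^x |A(s, u)|^2 du / u`, with limit `1 / |ζ(s)|^2 + ∑_ρ 1 / |(ρ - s) ζ'(ρ)|^2`.
If some point is not covered, then the weak Mertens hypothesis is false.
-/

namespace Pool.Agent.Results.MP_323ce2_nt.EveryPoint

open Filter Topology

/-- the Mertens function -/
noncomputable def M (u : ℝ) : ℝ := ∑ n ∈ Finset.Icc 1 ⌊u⌋₊, ((ArithmeticFunction.moebius n : ℤ) : ℝ)

/-- the weak Mertens hypothesis -/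
def WeakMertens : Prop :=
  ∃ C : ℝ, ∀ x : ℝ, 2 ≤ x → ∫ u in (1:ℝ)..x, (M u / u) ^ 2 ≤ C * Real.log x

/-- the nontrivial zeros of the Riemann zeta function -/
def NT : Set ℂ := {ρ | riemannZeta ρ = 0 ∧ 0 < ρ.re ∧ ρ.re < 1}

/-- `∑_{n ≤ u} μ(n) n^(-s)` -/
noncomputable def A (s : ℂ) (u : ℝ) : ℂ :=
  ∑ n ∈ Finset.Icc 1 ⌊u⌋₊, ((ArithmeticFunction.moebius n : ℤ) : ℂ) * (n : ℂ) ^ (-s)

/-- the main term of `A s u` -/
noncomputable def mainTerm (s : ℂ) (u : ℝ) : ℂ :=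
  if s.re < 1 / 2 then 0
  else if s = 1 then 0
  else if riemannZeta s ≠ 0 then 1 / riemannZeta s
  else Real.log u / deriv riemannZeta s - iteratedDeriv 2 riemannZeta s / (2 * deriv riemannZeta s ^ 2)

/-- the points covered: all complex numbers except the zeros off the critical line with `Re s > 1/2` and the
multiple zeros on it -/
def Covered (s : ℂ) : Prop :=
  s.re < 1 / 2 ∨ s = 1 ∨ riemannZeta s ≠ 0 ∨ (s.re = 1 / 2 ∧ deriv riemannZeta s ≠ 0)

/-- `∫_1^x |F(u)|^2 u^(2 Re s - 2) du` -/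
noncomputable def meanSq (s : ℂ) (F : ℝ → ℂ) (x : ℝ) : ℝ :=
  ∫ u in (1:ℝ)..x, ‖F u‖ ^ 2 * u ^ (2 * s.re - 2)

/-- `∑_ρ 1 / |(ρ - s) ζ'(ρ)|^2`; a term with `ρ = s` is `0` -/
noncomputable def zeroSum (s : ℂ) : ℝ := ∑' ρ : NT, 1 / ‖((ρ : ℂ) - s) * deriv riemannZeta ρ‖ ^ 2

/-- the mean square `I` is equivalent to the weak Mertens hypothesis, and `I x / log x` tends to `S` under
the weak Mertens hypothesis and to infinity otherwise -/
def Law (I : ℝ → ℝ) (S : ℝ) : Prop :=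
  (WeakMertens ↔ ∃ C : ℝ, ∀ x : ℝ, 2 ≤ x → I x ≤ C * Real.log x) ∧
  (WeakMertens ↔ ∃ C : ℝ, ∃ᶠ x : ℝ in atTop, I x ≤ C * Real.log x) ∧
  (WeakMertens → Tendsto (fun x : ℝ => I x / Real.log x) atTop (𝓝 S)) ∧
  (¬ WeakMertens → Tendsto (fun x : ℝ => I x / Real.log x) atTop atTop)

/-- the explicit formula `F(u) = ∑_ρ u^(ρ - s) / ((ρ - s) ζ'(ρ))` in mean square -/
def ExplicitFormula (s : ℂ) (F : ℝ → ℂ) : Prop :=
  ∀ ε : ℝ, 0 < ε → ∃ Z : Finset ℂ, (∀ ρ ∈ Z, ρ ∈ NT) ∧ ∀ Z' : Finset ℂ, Z ⊆ Z' → (∀ ρ ∈ Z', ρ ∈ NT) →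
    ∀ᶠ x : ℝ in atTop, meanSq s (fun u => F u - ∑ ρ ∈ Z', (u : ℂ) ^ (ρ - s) / ((ρ - s) * deriv riemannZeta ρ)) x
      ≤ ε * Real.log x

open Pool.Agent.P8H42.EP in
open Pool.Agent.R613.WM (IQ TP TP_eq) in
open Pool.Agent.H295R2 (ww ee) in
lemma to_IQ {s : ℂ} {F : ℝ → ℂ} {G : ℝ → ℂ}
    (h : ∀ v : ℝ, 0 ≤ v → G v = Complex.exp ((s - 1 / 2) * v) * F (Real.exp v)) {x : ℝ} (hx : 1 ≤ x) :
    meanSq s F x = IQ G (Real.log x) := by
  have h1 := Pool.Agent.R613.WM.int_IQ (F := fun u => ‖F u‖ * u ^ (s.re - 1)) (G := G) (fun v hv => ?_) hx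
  · rw [← h1]
    unfold meanSq
    apply intervalIntegral.integral_congr
    intro u hu
    rw [Set.uIcc_of_le hx] at hu
    have hu0 : 0 ≤ u := by linarith [hu.1]
    simp only
    rw [mul_pow, ← Real.rpow_natCast (u ^ (s.re - 1)) 2, ← Real.rpow_mul hu0]
    congr 2
    push_cast
    ring
  · rw [h v hv, norm_mul, Complex.norm_exp]
    have e1 : ((s - 1 / 2) * (v : ℂ)).re = (s.re - 1 / 2) * v := by simp
    rw [e1]
    rw [mul_pow, mul_pow, ← Real.exp_mul, ← Real.exp_nat_mul, ← Real.exp_nat_mul]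
    have e2 : Real.exp (((2:ℕ):ℝ) * ((s.re - 1 / 2) * v)) =
        Real.exp v * Real.exp (((2:ℕ):ℝ) * (v * (s.re - 1))) := by
      rw [← Real.exp_add]
      congr 1
      push_cast
      ring
    rw [e2]
    ring

lemma wm_zc : WeakMertens ↔ Pool.Agent.W120.WM.ZC := Pool.Agent.TH223.AP.WM_iff_ZC

lemma law_of {I : ℝ → ℝ} {S : ℝ} (h : Pool.Agent.R613.WM.LawI I S) : Law I S := by
  unfold Law
  rw [wm_zc]
  exact h

open Pool.Agent.P8H42.EP in
open Pool.Agent.R613.WM (IQ TP TP_eq) in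
open Pool.Agent.H295R2 (ww ee) in
/-- the weak Mertens hypothesis at every point `s` -/
theorem result (s : ℂ) :
    (Covered s → Law (meanSq s (fun u => A s u - mainTerm s u)) (zeroSum s) ∧
      (WeakMertens → (Summable fun ρ : NT => 1 / ‖((ρ : ℂ) - s) * deriv riemannZeta ρ‖ ^ 2) ∧
        0 < zeroSum s ∧ ExplicitFormula s (fun u => A s u - mainTerm s u))) ∧
    (s.re = 1 / 2 → riemannZeta s ≠ 0 → Law (meanSq s (A s)) (1 / ‖riemannZeta s‖ ^ 2 + zeroSum s)) ∧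
    (¬ Covered s → ¬ WeakMertens) := by
  refine ⟨fun hs => ?_, fun hs hs0 => ?_, fun hs => ?_⟩
  · have hI : ∀ x : ℝ, 1 ≤ x → meanSq s (fun u => A s u - mainTerm s u) x = IQ (Gs s) (Real.log x) :=
      fun x hx => to_IQ (fun v hv => Gs_nonneg s hv) hx
    obtain ⟨h1, h2⟩ := law_E hs hI
    refine ⟨law_of h1, fun hW => ?_⟩
    have hZ := wm_zc.1 hW
    refine ⟨(h2 hZ).1, (h2 hZ).2, fun ε hε => ?_⟩
    obtain ⟨Z, hZ1, hZ2⟩ := (dk_all hZ hs).explicit hZ hε
    refine ⟨Z, hZ1, fun Z' hZZ hN => ?_⟩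
    have h3 := Real.tendsto_log_atTop.eventually (hZ2 Z' hZZ hN)
    filter_upwards [h3, eventually_ge_atTop (1:ℝ)] with x hx hx1
    rw [to_IQ (G := fun v => Gs s v - TP (fun ρ => ww ρ * ms s ρ) Z' v) (fun v hv => ?_) hx1]
    · exact hx
    · rw [Gs_nonneg s hv, TP_eq _ Z' hv, mul_sub (Complex.exp ((s - 1 / 2) * v)) (A s (Real.exp v) -
        mainTerm s (Real.exp v)), Finset.mul_sum]
      congr 1
      refine Finset.sum_congr rfl fun ρ hρ => ?_
      have hρ0 := NT_ne (hN ρ hρ)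
      have e1 : ((Real.exp v : ℝ) : ℂ) ^ (ρ - s) = Complex.exp ((ρ - s) * v) := by
        rw [Complex.cpow_def_of_ne_zero (by exact_mod_cast (Real.exp_pos v).ne'),
          ← Complex.ofReal_log (Real.exp_pos v).le, Real.log_exp]
        congr 1
        ring
      have e2 : ee ρ v = Complex.exp ((s - 1 / 2) * v) * Complex.exp ((ρ - s) * v) := by
        unfold ee
        rw [← Complex.exp_add]
        congr 1
        ring
      have e3 : ww ρ * ms s ρ = 1 / ((ρ - s) * deriv riemannZeta ρ) := by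
        unfold ww ms
        by_cases h0 : ρ - s = 0
        · rw [h0]
          simp
        · by_cases h4 : deriv riemannZeta ρ = 0
          · rw [h4]
            simp
          · field_simp
      rw [e1, e2, e3]
      ring
  · exact law_of (law_A hs hs0 fun x hx => to_IQ (fun v hv => Ga_eq hs hs0 hv) hx)
  · rw [wm_zc]
    exact not_pt hs

end Pool.Agent.Results.MP_323ce2_nt.EveryPoint
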