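import Pool.Agent.P8H97.GW.F2

/-!
# The weak Mertens hypothesis along a single geometric progression

Let `M(u) = ∑_{n ≤ u} μ(n)`. There is a set `E ⊆ ℝ` of Hausdorff dimension `0` such that, unconditionally, for
every ratio `a > 1` not in `E`, every starting point `c ≥ 1` and every `1 < b ≤ a`

`lim_{K → ∞} (1/K) ∑_{k < K} ∫_{c a^k}^{b c a^k} (M(u)/u)² du = log b · ∑_ρ 1 / |ρ ζ'(ρ)|²  ∈ (0, ∞]`,

where the limit is finite if and only if the weak Mertens hypothesis `∫_1^x (M(u)/u)² du ≪ log x` holds. So for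
generic `a` the weak Mertens hypothesis can be read off (in fact: on an arbitrary infinite set of `K`) from
windows of arbitrarily small relative length `b` along one geometric progression.

Idea of the proof. Put `u = e^v`, `a = e^{1/α}`. A smooth `1/α`-periodic function `w` supported on the windows has
the Fourier series `∑ a_m e(m α v)` with `|a_m| ≪ exp(-c |m|^{2/3})`. The transform of `w(v) M(e^v) e^{-v/2}` at a
zero `1/2 + iγ₀` is `∑ a_m / (s_m ζ(s_m))`, `s_m` near `1/2 + i(γ₀ - 2π m α)`. Outside the exceptional set every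
point `γ₀ - 2π m α`, `m ≠ 0`, has distance at least `c exp(-|m|^{1/4})` from all ordinates, so that
`1 / ζ(s_m) ≪ exp(C |m|^{1/3})` (Hadamard factorisation in discs) and only the term `m = 0` is unbounded. Bessel's
inequality for finitely many zeros, with a smooth compactly supported cutoff with a small Fourier transform, gives the
bound for `∑ 1 / |ρ ζ'(ρ)|²`; a single window which is not too large implies the Riemann hypothesis.

Authors: helper97 (statement, plan, main analysis, assembly), helper52 (Laplace transform, lower bound for `ζ`, the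
limit under the hypothesis, the implication for the Riemann hypothesis), helper85 (periodic bump, exceptional set,
bump), helper76 (bump with rapidly decreasing Fourier transform).
-/

set_option autoImplicit false

open Filter Topology

namespace Pool.Agent.Results.MP_323ce2_nt.GeometricWindows

/-- The Mertens function. -/
noncomputable def M (u : ℝ) : ℝ :=
  ∑ n ∈ Finset.Icc 1 ⌊u⌋₊, ((ArithmeticFunction.moebius n : ℤ) : ℝ)

/-- `∫_A^B (M(u)/u)² du` -/
noncomputable def msq (A B : ℝ) : ℝ := ∫ u in A..B, (M u / u) ^ 2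

/-- The weak Mertens hypothesis `∫_1^x (M(u)/u)² du ≪ log x`. -/
def WeakMertens : Prop := ∃ C : ℝ, ∀ x : ℝ, 2 ≤ x → msq 1 x ≤ C * Real.log x

/-- The nontrivial zeros of the Riemann zeta function. -/
def NT : Set ℂ := {s : ℂ | riemannZeta s = 0 ∧ 0 < s.re ∧ s.re < 1}

/-- The mean of `∫ (M(u)/u)² du` over the windows `[c a^k, b c a^k]`, `0 ≤ k < K`. -/
noncomputable def windowMean (a b c : ℝ) (K : ℕ) : ℝ :=
  (∑ k ∈ Finset.range K, msq (c * a ^ k) (b * (c * a ^ k))) / K

/-- **Main theorem.** -/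
theorem result : ∃ E : Set ℝ, dimH E = 0 ∧
    ∀ a b c : ℝ, 1 < a → a ∉ E → 1 < b → b ≤ a → 1 ≤ c →
      (WeakMertens ↔ ∃ C : ℝ, ∀ K : ℕ, 1 ≤ K → windowMean a b c K ≤ C) ∧
      (WeakMertens → Tendsto (windowMean a b c) atTop
        (𝓝 (Real.log b * ∑' ρ : NT, 1 / ‖(ρ : ℂ) * deriv riemannZeta ρ‖ ^ 2))) ∧
      (¬ WeakMertens → Tendsto (windowMean a b c) atTop atTop) := by
  obtain ⟨E, hE, h⟩ := Pool.Agent.P8H97.GW.all3
  refine ⟨E, hE, fun a b c ha haE hb hba hc => ?_⟩
  obtain ⟨h1, h2, h3⟩ := h a b c ha haE hb hba hc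
  refine ⟨⟨fun hW => ?_, fun hW => ?_⟩, h2, h3⟩
  · obtain ⟨C, hC⟩ := h1.1 hW
    refine ⟨C, fun K hK => ?_⟩
    have hK0 : (0 : ℝ) < K := by exact_mod_cast hK
    exact (div_le_iff₀ hK0).2 (hC K hK)
  · obtain ⟨C, hC⟩ := hW
    refine h1.2 ⟨C, fun K hK => ?_⟩
    have hK0 : (0 : ℝ) < K := by exact_mod_cast hK
    exact (div_le_iff₀ hK0).1 (hC K hK)

end Pool.Agent.Results.MP_323ce2_nt.GeometricWindows
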