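import Pool.Agent.P8H15.RM.Ft
import Pool.Agent.P8H15.RM.Rr
import Pool.Agent.P8H75.RM.Mg
import Pool.Agent.P8H45.RM.Pz
import Pool.Agent.P8H45.RM.Zt
import Pool.Agent.P8H7.RM.Ind
import Pool.Agent.P8H7.RM.To
import Pool.Agent.P8H53.RM.Lg

/-!
# The weak Mertens hypothesis for almost all sign twists of the Moebius function

Let `f` be the completely multiplicative function with the values `f(q) = s_q` at the primes `q`, and let
`M_f(u) = ∑_{n ≤ u} μ(n) f(n)`, so that `M_1` is the Mertens function of the weak Mertens hypothesis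
`∫_1^x (M_1(u)/u)² du ≪ log x`.

Theorem. For independent fair signs `s_q` almost surely `∫_1^x (M_f(u)/u)² du = o(log x)`. In particular the weak
Mertens bound holds for almost all sign twists of `μ`, with an arbitrarily small constant for large `x`.
(The expectation of the integral is of the order `log x`, and for `μ` itself the integral is not `o(log x)`.)

Proof. Let `D_N(t) = ∏_{q ≤ N} |1 - s_q q^(-1/2-it)|²`, `R_N = ∏_{q ≤ N} (1 + 1/q)` and
`J_N = (1/2π) ∫ D_N(t) dt / (1/4 + t²)`. By Plancherel's theorem `J_N = ∫_1^∞ (M_{f,N}(u)/u)² du`, where only the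
integers whose prime factors are at most `N` are counted in `M_{f,N}`; so `∫_1^x (M_f(u)/u)² du ≤ J_N` for
`N = ⌊x⌋`. The quotient `W_N = J_N / R_N` is a nonnegative martingale with mean one and `R_N ≤ C log N`. So `W_N`
converges almost surely, and it remains to show that the limit is zero (a critical multiplicative chaos; the
critical case of the Euler product on the line `Re s = 1/2`). By Fubini and Fatou it is enough to show for every
fixed `t ≠ 0` and `K` that the event `W_j ≤ K` for all `j ≤ N` has a probability tending to zero under the measure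
tilted by `D_N(t) / R_N`. Under this measure the signs are independent, with means `tl t q`, and by the inequality of
Cauchy and Schwarz `W_N ≥ c_t |∏_{q ≤ N} (1 - s_q q^(-1/2-δ-it))|² / (log N)²`, `δ = 1 / log N`. The logarithm of the
right-hand side has a bounded mean (`ζ(1 + 2 i t) ≠ 0`) and the variance `2 log log N + O(1)`; by an inequality of the
type of Paley and Zygmund for blocks of primes it is unbounded.

Parts of the proof: helper7 (independence, tilted measures), helper45 (anti-concentration, sums over primes),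
helper53 (logarithm of the Euler product), helper75 (martingale).
-/

set_option autoImplicit false

namespace Pool.Agent.Results.MP_323ce2_nt.RandomSigns

open MeasureTheory ProbabilityTheory Filter Topology

/-- The value at `n` of the completely multiplicative function with the values `s q` at the primes `q`. -/
noncomputable def twist (s : ℕ → ℝ) (n : ℕ) : ℝ := (n.primeFactorsList.map s).prod

/-- The sum of `μ(n) f(n)` over `n ≤ u`, where `f` is completely multiplicative with `f q = s q` at the primes.
For `s = 1` this is the Mertens function. -/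
noncomputable def mertens (s : ℕ → ℝ) (u : ℝ) : ℝ :=
  ∑ n ∈ Finset.Icc 1 ⌊u⌋₊, ((ArithmeticFunction.moebius n : ℤ) : ℝ) * twist s n

lemma mertens_eq (s : ℕ → ℝ) (u : ℝ) : mertens s u = Pool.Agent.P8H15.RM.M s u := by
  unfold mertens Pool.Agent.P8H15.RM.M
  refine Finset.sum_congr rfl fun n _ => ?_
  by_cases h : Squarefree n
  · congr 1
    unfold twist Pool.Agent.P8H15.RM.sg
    rw [← Nat.toFinset_factors, ← List.prod_toFinset _ (Nat.squarefree_iff_nodup_primeFactorsList
      h.ne_zero |>.1 h)]
  · rw [ArithmeticFunction.moebius_eq_zero_of_not_squarefree h]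
    simp

open Pool.Agent.P8H15.RM in
lemma main {Ω : Type} [MeasurableSpace Ω] (P : Measure Ω) [IsProbabilityMeasure P] (s : ℕ → Ω → ℝ)
    (hs : Fair P s) : ∀ᵐ ω ∂P, Tendsto (fun x : ℝ =>
      (∫ u in (1 : ℝ)..x, (M (fun q => s q ω) u / u) ^ 2) / Real.log x) atTop (𝓝 0) := by
  have hLG := Pool.Agent.P8H53.RM.lg ft Pool.Agent.P8H45.RM.Zt.zt rr
  have hTO := Pool.Agent.P8H7.RM.t_TO Pool.Agent.P8H45.RM.Pz.pz hLG Pool.Agent.P8H7.RM.ind
  have hMG := Pool.Agent.P8H75.RM.mg Ω P s hs (hTO Ω P s hs)
  obtain ⟨C, hC, hR⟩ := rr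
  filter_upwards [hMG] with ω hω
  have h1 : Tendsto (fun x : ℝ => C * (J ⌊x⌋₊ (fun q => s q ω) / R ⌊x⌋₊)) atTop (𝓝 0) := by
    have h2 := (hω.comp (tendsto_nat_floor_atTop (α := ℝ))).const_mul C
    rw [mul_zero] at h2
    exact h2
  refine squeeze_zero' ?_ ?_ h1
  · filter_upwards [eventually_ge_atTop (2 : ℝ)] with x hx
    exact div_nonneg (intervalIntegral.integral_nonneg (by linarith) fun u _ => sq_nonneg _)
      (Real.log_nonneg (by linarith))
  · filter_upwards [eventually_ge_atTop (2 : ℝ)] with x hx
    have hN : 2 ≤ ⌊x⌋₊ := Nat.le_floor (by exact_mod_cast hx)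
    have hx0 : 0 < Real.log x := Real.log_pos (by linarith)
    have hNx : (⌊x⌋₊ : ℝ) ≤ x := Nat.floor_le (by linarith)
    have hN1 : (1 : ℝ) < ⌊x⌋₊ := by exact_mod_cast (by omega : 1 < ⌊x⌋₊)
    have h3 := (ft (fun q => s q ω) (fun q => hs.sgn q ω) ⌊x⌋₊).1 x (by linarith) (Nat.lt_floor_add_one x)
    have hR0 : 0 < R ⌊x⌋₊ := by
      unfold R
      exact Finset.prod_pos fun q _ => by positivity
    have hJ0 : 0 ≤ J ⌊x⌋₊ (fun q => s q ω) := by
      refine le_trans ?_ h3
      exact intervalIntegral.integral_nonneg (by linarith) fun u _ => sq_nonneg _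
    have hW0 : 0 ≤ J ⌊x⌋₊ (fun q => s q ω) / R ⌊x⌋₊ := div_nonneg hJ0 hR0.le
    have hlog : Real.log ⌊x⌋₊ ≤ Real.log x := Real.log_le_log (by linarith) hNx
    rw [div_le_iff₀ hx0]
    calc _ ≤ J ⌊x⌋₊ (fun q => s q ω) := h3
      _ = J ⌊x⌋₊ (fun q => s q ω) / R ⌊x⌋₊ * R ⌊x⌋₊ := by field_simp
      _ ≤ J ⌊x⌋₊ (fun q => s q ω) / R ⌊x⌋₊ * (C * Real.log x) := by
          refine mul_le_mul_of_nonneg_left ((hR _ hN).trans ?_) hW0
          exact mul_le_mul_of_nonneg_left hlog hC.le
      _ = _ := by ring

/-- **The weak Mertens hypothesis for almost all sign twists of `μ`.** Let `s q` be independent random variables on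
any probability space with `P (s q = 1) = P (s q = -1) = 1 / 2`. Almost surely
`∫_1^x (∑_{n ≤ u} μ(n) f(n) / u)² du / log x` tends to zero as `x → ∞`, where `f` is the completely multiplicative
function with `f(q) = s q` at the primes `q`. -/
theorem result {Ω : Type} [MeasurableSpace Ω] (P : Measure Ω) [IsProbabilityMeasure P] (s : ℕ → Ω → ℝ)
    (hmeas : ∀ q, Measurable (s q)) (hind : iIndepFun s P)
    (hone : ∀ q, P {ω | s q ω = 1} = 1 / 2) (hneg : ∀ q, P {ω | s q ω = -1} = 1 / 2) :
    ∀ᵐ ω ∂P, Tendsto (fun x : ℝ =>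
      (∫ u in (1 : ℝ)..x, (mertens (fun q => s q ω) u / u) ^ 2) / Real.log x) atTop (𝓝 0) := by
  classical
  -- a version with values `± 1` everywhere
  let g : ℝ → ℝ := fun y => if y = 1 then 1 else -1
  have hg : Measurable g := Measurable.ite (measurableSet_singleton 1) measurable_const measurable_const
  let s' : ℕ → Ω → ℝ := fun q ω => g (s q ω)
  have hae : ∀ᵐ ω ∂P, ∀ q, s' q ω = s q ω := by
    rw [ae_all_iff]
    intro q
    have hm1 : MeasurableSet {ω | s q ω = 1} := hmeas q (measurableSet_singleton 1)
    have hm2 : MeasurableSet {ω | s q ω = -1} := hmeas q (measurableSet_singleton (-1))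
    have hdis : Disjoint {ω | s q ω = 1} {ω | s q ω = -1} := by
      rw [Set.disjoint_left]
      intro ω h1 h2
      replace h1 : s q ω = 1 := h1
      replace h2 : s q ω = -1 := h2
      rw [h1] at h2
      norm_num at h2
    have h1 : P ({ω | s q ω = 1} ∪ {ω | s q ω = -1}) = 1 := by
      rw [measure_union hdis hm2, hone, hneg, ENNReal.add_halves]
    have h2 : ∀ᵐ ω ∂P, ω ∈ {ω | s q ω = 1} ∪ {ω | s q ω = -1} := by
      rw [← prob_compl_eq_zero_iff (hm1.union hm2)] at h1
      exact h1
    filter_upwards [h2] with ω hω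
    rcases hω with h | h
    · replace h : s q ω = 1 := h
      show g (s q ω) = s q ω
      simp [g, h]
    · replace h : s q ω = -1 := h
      show g (s q ω) = s q ω
      rw [h]
      simp only [g]
      norm_num
  have hF : Pool.Agent.P8H15.RM.Fair P s' := by
    refine ⟨fun q => hg.comp (hmeas q), hind.comp (fun _ => g) (fun _ => hg), fun q ω => ?_, fun q => ?_,
      fun q => ?_⟩
    · show g (s q ω) = 1 ∨ g (s q ω) = -1
      by_cases h : s q ω = 1
      · left; simp [g, h]
      · right; simp [g, h]
    · rw [← hone q]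
      refine measure_congr ?_
      filter_upwards [hae] with ω hω
      exact propext (by show s' q ω = 1 ↔ s q ω = 1; rw [hω q])
    · rw [← hneg q]
      refine measure_congr ?_
      filter_upwards [hae] with ω hω
      exact propext (by show s' q ω = -1 ↔ s q ω = -1; rw [hω q])
  filter_upwards [main P s' hF, hae] with ω h1 h2
  have h3 : (fun q => s q ω) = fun q => s' q ω := funext fun q => (h2 q).symm
  simp_rw [mertens_eq, h3]
  exact h1

end Pool.Agent.Results.MP_323ce2_nt.RandomSigns
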