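import Pool.Agent.P8H38.SB.Law
import Pool.Agent.P8H20.SB.Taub
import Pool.Agent.P8H20.SB.Abel
import Pool.Agent.P8H7.SB.Upp
import Pool.Agent.P8H84.SB.Fou
import Pool.Agent.P8H88.SB.Kk
import Pool.Agent.P8H88.SB.Low

/-!
# The sums `J_{-1}(T)` and the mean square of the Möbius function over short blocks

Let `M(u) = ∑_{n ≤ u} μ(n)`, `J(T) = ∑_{0 < γ ≤ T} 1 / |ζ'(ρ)|²` and `B(t, x) = ∫_1^x ((M(u) - M(t u)) / u)² du`, where
`M(u) - M(t u)` is the sum of `μ(n)` over the block `t u < n ≤ u`. The weak Mertens hypothesis is known to follow from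
RH, the simplicity of the zeros and the bound `J(T) ≪ T` (Ng), and the conjecture of Gonek and Hejhal is
`J(T) ~ (3 / π³) T`. Both are characterised here, unconditionally, by the sums of `μ` over short blocks:

1. For `0 < α < 2`: RH holds, the zeros are simple and `J(T) ≪ T^α`, if and only if `B(t, x) ≤ C (1 - t)^(2-α) log x` for all
   `t < 1` and `x ≥ x₀(t)`, if and only if this holds for the `t = 1 - 2^(-k)`, `k ≥ 1`, and for arbitrarily large `x`, which
   may depend on `k`.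
2. RH holds, the zeros are simple and `J(T) / T → c`, if and only if `B(t, x) / log x` has a finite limit `V(t)` for every
   `t < 1` and `V(t) / (1 - t) → 2 π c` for `t → 1`. For `c = 3 / π³` the constant `2 π c` is `6 / π²`, the density of the
   squarefree numbers, as for random signs on the squarefree numbers (Good and Churchhouse).

For `α = 1` the first part says that the hypothesis of Ng is the weak Mertens hypothesis for short blocks, with the bound
proportional to the length of the block.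

Proof: for fixed `t` the limit is `∑_ρ |1 - t^ρ|² / |ρ ζ'(ρ)|²` (starting files, `CoprimeWeightedBlocks`); with `y = - log t` and
`S = ∑_ρ 1 / |ρ ζ'(ρ)|²` it is `(1 - √t)² S + 4 √t ∑_{γ > 0} (1 - cos (γ y)) / |ρ ζ'(ρ)|²`. The rest are Abelian and Tauberian
theorems for such sums; the Tauberian theorem uses even test functions with compact support in the variable `γ`.

Authors of the parts: helper38 (theorem, assembly), helper20 (`Taub`, `Abel`), helper84 (`Fou`), helper7 (`Upp`), helper88 (`Kk`, `Low`).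
-/

set_option autoImplicit false

open Filter Topology MeasureTheory

namespace Pool.Agent.Results.MP_323ce2_nt.ShortBlocks

/-- the Mertens function `∑_{n ≤ u} μ(n)` -/
noncomputable def M (u : ℝ) : ℝ := ∑ n ∈ Finset.Icc 1 ⌊u⌋₊, ((ArithmeticFunction.moebius n : ℤ) : ℝ)

/-- `∫_1^x ((M(u) - M(t u)) / u)² du`, the mean square of the sums of `μ` over the blocks `(t u, u]` -/
noncomputable def B (t x : ℝ) : ℝ := ∫ u in (1:ℝ)..x, ((M u - M (t * u)) / u) ^ 2

/-- the nontrivial zeros of the Riemann zeta function -/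
def NT : Set ℂ := {s : ℂ | riemannZeta s = 0 ∧ 0 < s.re ∧ s.re < 1}

/-- the Riemann Hypothesis holds and all nontrivial zeros are simple -/
def SimpleRH : Prop := ∀ ρ ∈ NT, ρ.re = 1 / 2 ∧ deriv riemannZeta ρ ≠ 0

/-- `J_{-1}(T) = ∑_{0 < γ ≤ T} 1 / |ζ'(ρ)|²` (a finite sum) -/
noncomputable def J (T : ℝ) : ℝ :=
  ∑' ρ : {ρ : ℂ | ρ ∈ NT ∧ 0 < ρ.im ∧ ρ.im ≤ T}, 1 / ‖deriv riemannZeta ρ‖ ^ 2

/-- (1) For `0 < α < 2` the following are equivalent: RH, simple zeros and `J(T) ≤ C T^α` for all `T ≥ 1`; for all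
`0 < t < 1` and all large `x`, `B(t, x) ≤ C (1 - t)^(2-α) log x`; for all `t = 1 - 2^(-k)`, `k ≥ 1`, and for arbitrarily large
`x`, `B(t, x) ≤ C (1 - t)^(2-α) log x`.

(2) For every real `c`: RH holds, the zeros are simple and `J(T) / T → c` if and only if for every `0 < t < 1` the quotient
`B(t, x) / log x` has a finite limit `V(t)` for `x → ∞`, and `V(t) / (1 - t) → 2 π c` for `t → 1`. -/
theorem result :
    (∀ α : ℝ, 0 < α → α < 2 → List.TFAE [
      SimpleRH ∧ ∃ C : ℝ, ∀ T : ℝ, 1 ≤ T → J T ≤ C * T ^ α,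
      ∃ C : ℝ, ∀ t : ℝ, 0 < t → t < 1 → ∀ᶠ x : ℝ in atTop, B t x ≤ C * (1 - t) ^ (2 - α) * Real.log x,
      ∃ C : ℝ, ∀ k : ℕ, ∃ᶠ x : ℝ in atTop,
        B (1 - (1 / 2) ^ (k + 1)) x ≤ C * ((1 / 2 : ℝ) ^ (k + 1)) ^ (2 - α) * Real.log x]) ∧
    ∀ c : ℝ, (SimpleRH ∧ Tendsto (fun T : ℝ => J T / T) atTop (𝓝 c)) ↔
      ∃ V : ℝ → ℝ, (∀ t : ℝ, 0 < t → t < 1 →
        Tendsto (fun x : ℝ => B t x / Real.log x) atTop (𝓝 (V t))) ∧
        Tendsto (fun t : ℝ => V t / (1 - t)) (𝓝[<] 1) (𝓝 (2 * Real.pi * c)) :=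
  Pool.Agent.P8H38.SB.main Pool.Agent.P8H38.SB.lawH Pool.Agent.P8H7.SB.upp Pool.Agent.P8H88.SB.summ
    Pool.Agent.P8H88.SB.low (Pool.Agent.P8H20.SB.abel Pool.Agent.P8H88.SB.kk)
    (Pool.Agent.P8H20.SB.taub (Pool.Agent.P8H84.SB.fou Pool.Agent.P8H88.SB.kk))

end Pool.Agent.Results.MP_323ce2_nt.ShortBlocks
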